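import Pool.Agent.N352.PJ.Lat

/-!
# Statements of the local parts and of the reciprocity law

Project PJ (helper352).
-/

set_option autoImplicit false
set_option linter.all false

open Polynomial IsDedekindDomain Matrix WithZero
open scoped Classical

namespace Pool.Agent.N352.PJ

open Pool.Agent.N874.PP (Ov Ev Sq1 U0)

/-! ### Primes over `Q` -/

/-- The two primes over `Q`. -/
def S_EXQ : Prop := ∀ (g : ℕ) (k K L O : Type) [Field k] [Finite k] [Field K] [Algebra k[X] K]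
  [IsFractionRing k[X] K]
  [Field L] [Algebra K L] [Algebra k[X] L] [IsScalarTower k[X] K L] [CommRing O]
  [IsDedekindDomain O] [Algebra O L] [IsFractionRing O L] [Algebra k[X] O]
  [IsScalarTower k[X] O L] [IsIntegralClosure O k[X] L] (f : k[X][X]) (θ : L)
  (S : Finset k[X]) (h : k[X] → k[X][X]), 1 ≤ g →
  IsGen g K f θ → Squarefree (dsc g f) → GoodS g S h → ∀ Q ∈ S, Cg Q f (X * h Q) →
  ∃ 𝔓₁ 𝔮 : HeightOneSpectrum O, Ov Q 𝔓₁ ∧ Ov Q 𝔮 ∧ 𝔓₁.valuation L θ < 1 ∧ 𝔮.valuation L θ = 1 ∧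
    𝔓₁.valuation L (algebraMap k[X] L Q) = exp (-1 : ℤ) ∧
    𝔮.valuation L (algebraMap k[X] L Q) = exp (-1 : ℤ) ∧
    ∀ 𝔓 : HeightOneSpectrum O, Ov Q 𝔓 → 𝔓 = 𝔓₁ ∨ 𝔓 = 𝔮

/-- Polynomials in `t` are squares at the big prime over `Q` (its degree over `k[t] / Q` is
even); the degree of the residue field over `k`. -/
def S_CSQ : Prop := ∀ (g : ℕ) (k K L O : Type) [Field k] [Finite k] [Field K] [Algebra k[X] K]
  [IsFractionRing k[X] K]
  [Field L] [Algebra K L] [Algebra k[X] L] [IsScalarTower k[X] K L] [CommRing O]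
  [IsDedekindDomain O] [Algebra O L] [IsFractionRing O L] [Algebra k[X] O]
  [IsScalarTower k[X] O L] [IsIntegralClosure O k[X] L] (f : k[X][X]) (θ : L)
  (S : Finset k[X]) (h : k[X] → k[X][X]), 1 ≤ g →
  IsGen g K f θ → Squarefree (dsc g f) → GoodS g S h → ∀ Q ∈ S, Cg Q f (X * h Q) →
  ∀ 𝔮 : HeightOneSpectrum O, Ov Q 𝔮 → 𝔮.valuation L θ = 1 →
    (∀ c : k[X], ¬ Q ∣ c → Sq1 𝔮 (algebraMap k[X] L c)) ∧
    Nat.card (O ⧸ 𝔮.asIdeal) = Nat.card k ^ (2 * g * Q.natDegree)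

/-- The parity at a prime of degree one from the norm. -/
def S_PAR : Prop := ∀ (g : ℕ) (k K L O : Type) [Field k] [Field K] [Algebra k[X] K]
  [IsFractionRing k[X] K]
  [Field L] [Algebra K L] [Algebra k[X] L] [IsScalarTower k[X] K L] [CommRing O]
  [IsDedekindDomain O] [Algebra O L] [IsFractionRing O L] [Algebra k[X] O]
  [IsScalarTower k[X] O L] [IsIntegralClosure O k[X] L] (f : k[X][X]) (θ : L),
  IsGen g K f θ → Squarefree (dsc g f) →
  ∀ P : k[X], Irreducible P → ∀ (𝔓₀ : HeightOneSpectrum O) (c : k[X]), Ov P 𝔓₀ →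
    𝔓₀.valuation L (θ - algebraMap k[X] L c) < 1 → ∀ x : L, x ≠ 0 → IsSquare (Algebra.norm K x) →
    (∀ 𝔓 : HeightOneSpectrum O, Ov P 𝔓 → 𝔓 ≠ 𝔓₀ → Ev 𝔓 x) → Ev 𝔓₀ x

/-- The parity at the prime of degree one over `Q` from the norm (the other prime over `Q` has
degree `2 g`). -/
def S_PARQ : Prop := ∀ (g : ℕ) (k K L O : Type) [Field k] [Finite k] [Field K] [Algebra k[X] K]
  [IsFractionRing k[X] K]
  [Field L] [Algebra K L] [Algebra k[X] L] [IsScalarTower k[X] K L] [CommRing O]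
  [IsDedekindDomain O] [Algebra O L] [IsFractionRing O L] [Algebra k[X] O]
  [IsScalarTower k[X] O L] [IsIntegralClosure O k[X] L] (f : k[X][X]) (θ : L)
  (S : Finset k[X]) (h : k[X] → k[X][X]), 1 ≤ g →
  IsGen g K f θ → Squarefree (dsc g f) → GoodS g S h → ∀ Q ∈ S, Cg Q f (X * h Q) →
  ∀ x : L, x ≠ 0 → IsSquare (Algebra.norm K x) →
    ∀ 𝔓 : HeightOneSpectrum O, Ov Q 𝔓 → 𝔓.valuation L θ < 1 → Ev 𝔓 x

/-- The square class at the prime of degree one over `Q` from the norm. -/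
def S_NS : Prop := ∀ (g : ℕ) (k K L O : Type) [Field k] [Finite k] [Field K] [Algebra k[X] K]
  [IsFractionRing k[X] K]
  [Field L] [Algebra K L] [Algebra k[X] L] [IsScalarTower k[X] K L] [CommRing O]
  [IsDedekindDomain O] [Algebra O L] [IsFractionRing O L] [Algebra k[X] O]
  [IsScalarTower k[X] O L] [IsIntegralClosure O k[X] L] (f : k[X][X]) (θ : L)
  (S : Finset k[X]) (h : k[X] → k[X][X]), 1 ≤ g → (2 : k) ≠ 0 →
  IsGen g K f θ → Squarefree (dsc g f) → GoodS g S h → ∀ Q ∈ S, Cg Q f (X * h Q) →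
  ∀ x : L, x ≠ 0 → IsSquare (Algebra.norm K x) →
    (∀ 𝔓 : HeightOneSpectrum O, Ov Q 𝔓 → 𝔓.valuation L θ < 1 → Ev 𝔓 x) →
    (∀ 𝔓 : HeightOneSpectrum O, Ov Q 𝔓 → 𝔓.valuation L θ = 1 → Sq1 𝔓 x) →
    ∀ 𝔓 : HeightOneSpectrum O, Ov Q 𝔓 → Sq1 𝔓 x

/-! ### Complete fields -/

/-- A discrete valuation of a complete field and its extension to the algebraic closure. -/
structure CV (E : Type) [Field E] (w : Valuation (AlgebraicClosure E) NNReal) (c : NNReal) :
    Prop where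
  c0 : 0 < c
  c1 : c < 1
  disc : ∀ x : E, x ≠ 0 → ∃ n : ℤ, w (algebraMap E (AlgebraicClosure E) x) = c ^ n
  conj : ∀ (σ : AlgebraicClosure E ≃ₐ[E] AlgebraicClosure E) (x : AlgebraicClosure E),
    w (σ x) = w x
  two : w 2 = 1
  sq : ∀ x : E, w (algebraMap E (AlgebraicClosure E) x - 1) < 1 → IsSquare x

/-- The extension of the valuation to the algebraic closure. -/
def S_EXT : Prop := ∀ (R F : Type) [CommRing R] [IsDedekindDomain R] [Field F] [Algebra R F]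
  [IsFractionRing R F] (v : HeightOneSpectrum R), v.valuation F 2 = 1 →
  ∃ (w : Valuation (AlgebraicClosure (v.adicCompletion F)) NNReal) (c : NNReal),
    CV (v.adicCompletion F) w c ∧ ∀ (x : v.adicCompletion F) (n : ℤ),
      Valued.v (Γ₀ := WithZero (Multiplicative ℤ)) x = exp (-n) →
        w (algebraMap (v.adicCompletion F) (AlgebraicClosure (v.adicCompletion F)) x) = c ^ n

/-- The map between completions. -/
def S_CPL : Prop := ∀ (k K L O : Type) [Field k] [Field K] [Algebra k[X] K]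
  [IsFractionRing k[X] K]
  [Field L] [Algebra K L] [Algebra k[X] L] [IsScalarTower k[X] K L] [CommRing O]
  [IsDedekindDomain O] [Algebra O L] [IsFractionRing O L] [Algebra k[X] O]
  [IsScalarTower k[X] O L] (P : k[X]) (v : HeightOneSpectrum k[X]) (𝔓 : HeightOneSpectrum O),
  Irreducible P → v.asIdeal = Ideal.span {P} → Ov P 𝔓 →
  ∃ ι : v.adicCompletion K →+* 𝔓.adicCompletion L,
    (∀ x : K, ι (algebraMap K (v.adicCompletion K) x) =
      algebraMap L (𝔓.adicCompletion L) (algebraMap K L x)) ∧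
    (∀ x, Valued.v (Γ₀ := WithZero (Multiplicative ℤ)) x ≤ 1 →
      Valued.v (Γ₀ := WithZero (Multiplicative ℤ)) (ι x) ≤ 1) ∧
    (∀ x, Valued.v (Γ₀ := WithZero (Multiplicative ℤ)) x < 1 →
      Valued.v (Γ₀ := WithZero (Multiplicative ℤ)) (ι x) < 1)

section abst

variable {E : Type} [Field E]

/-- The embedding into the algebraic closure. -/
noncomputable abbrev ac (x : E) : AlgebraicClosure E := algebraMap E (AlgebraicClosure E) x

/-- The number of roots of `u` at distance less than `w D` from `D t`. -/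
noncomputable def near (w : Valuation (AlgebraicClosure E) NNReal) (D : E) (u : E[X]) (t : E) : ℕ :=
  (u.map (algebraMap E (AlgebraicClosure E))).roots.countP fun x => w (x - ac (D * t)) < w (ac D)

/-- `∏ (X - D θ_i)` -/
noncomputable def prd {n : ℕ} (D : E) (θ : Fin n → E) : E[X] := ∏ i, (X - C (D * θ i))

end abst

/-- Good reduction: even valuations. -/
def S_E1 : Prop := ∀ (E : Type) [Field E] (w : Valuation (AlgebraicClosure E) NNReal) (c : NNReal),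
  CV E w c → ∀ (f u v : E[X]) (θ : E), f.Monic → Odd f.natDegree → (∀ i, w (ac (f.coeff i)) ≤ 1) →
  w (ac θ) ≤ 1 → f.eval θ = 0 → w (ac ((derivative f).eval θ)) = 1 → u.Monic → IsCoprime u f →
  u ∣ v ^ 2 - f → ∃ y : E, y ≠ 0 ∧ w (ac (u.eval θ)) = w (ac y) ^ 2

/-- A length argument. -/
def S_B1 : Prop := ∀ (A : Type) [CommRing A] [IsDomain A] [IsDiscreteValuationRing A]
  (π : A) (u f a : A[X]) (m : ℕ), Irreducible π → u.Monic → Odd m →
  IsCoprime (u.map (IsLocalRing.residue A)) (f.map (IsLocalRing.residue A)) →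
  u ∣ a ^ 2 - C (π ^ m) * f → ∃ ψ : (IsLocalRing.ResidueField A)[X],
    ψ.Monic ∧ u.map (IsLocalRing.residue A) = ψ ^ 2

/-- The local image over the primes which divide the twisting factor. -/
def S_E2 : Prop := ∀ (E : Type) [Field E] (w : Valuation (AlgebraicClosure E) NNReal) (c : NNReal),
  CV E w c → ∀ (g : ℕ) (D : E) (θ : Fin (2 * g + 1) → E) (u v : E[X]), 1 ≤ g → w (ac D) = c →
  (∀ i, w (ac (θ i)) ≤ 1) → w (ac (θ 0)) < 1 → (∀ i j, i ≠ j → w (ac (θ i - θ j)) = 1) →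
  u.Monic → IsCoprime u (prd D θ) → u ∣ v ^ 2 - prd D θ →
  (∀ i j, i ≠ 0 → j ≠ 0 → near w D u (θ i) = near w D u (θ j)) →
  ∀ i, i ≠ 0 → IsSquare ((-1) ^ u.natDegree * u.eval (D * θ i)) ∨
    IsSquare ((-1) ^ u.natDegree * u.eval (D * θ i) * (-(D * θ i)))

/-- The number of roots near conjugate elements. -/
def S_EQ : Prop := ∀ (E₀ E : Type) [Field E₀] [Field E] (ι : E₀ →+* E)
  (w : Valuation (AlgebraicClosure E) NNReal) (D : E₀) (t t' : E) (u : E₀[X]), D ≠ 0 → u ≠ 0 →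
  w (ac t) ≤ 1 → w (ac t') ≤ 1 →
  (∀ p : E₀[X], (∀ i, w (ac (ι (p.coeff i))) ≤ 1) →
    (w (ac ((p.map ι).eval t)) < 1 ↔ w (ac ((p.map ι).eval t')) < 1)) →
  near w (ι D) (u.map ι) t = near w (ι D) (u.map ι) t'

/-! ### The local conditions -/

/-- The class of `h(Θ)`, `f(Θ) = 0`, comes from a point of the Jacobian of `y ^ 2 = f(x)` over the
completion at `v`: up to squares it is a product of elements `(-1) ^ deg u * u(Θ)` with
`u ∣ b ^ 2 - f`, the images of the divisors of points with `u(x) = 0`, `y = b(x)`. -/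
def LocIm {k K : Type} [Field k] [Field K] [Algebra k[X] K] [IsFractionRing k[X] K]
    (v : HeightOneSpectrum k[X]) (f : k[X][X]) (h : K[X]) : Prop :=
  ∃ (l : List ((v.adicCompletion K)[X] × (v.adicCompletion K)[X])) (s : (v.adicCompletion K)[X]),
    (∀ p ∈ l, p.1.Monic ∧
      IsCoprime p.1 (f.map ((algebraMap K (v.adicCompletion K)).comp (algebraMap k[X] K))) ∧
      p.1 ∣ p.2 ^ 2 - f.map ((algebraMap K (v.adicCompletion K)).comp (algebraMap k[X] K))) ∧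
    f.map ((algebraMap K (v.adicCompletion K)).comp (algebraMap k[X] K)) ∣
      h.map (algebraMap K (v.adicCompletion K)) *
        (l.map fun p => (-1) ^ p.1.natDegree * p.1).prod - s ^ 2

/-- The 2-Selmer group (without condition at infinity) of the Jacobian of `y ^ 2 = f(x)` is
zero. -/
def SelZero {k : Type} (K : Type) [Field k] [Field K] [Algebra k[X] K] [IsFractionRing k[X] K]
    (f : k[X][X]) : Prop :=
  ∀ h : K[X], IsCoprime h (f.map (algebraMap k[X] K)) →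
    IsSquare (Algebra.norm K (AdjoinRoot.mk (f.map (algebraMap k[X] K)) h)) →
    (∀ v : HeightOneSpectrum k[X], LocIm v f h) → ∃ s : K[X], f.map (algebraMap k[X] K) ∣ h - s ^ 2

/-- Primes not dividing `D`: even valuations. -/
def S_LOC1 : Prop := ∀ (g : ℕ) (k K L O : Type) [Field k] [Finite k] [Field K] [Algebra k[X] K]
  [IsFractionRing k[X] K]
  [Field L] [Algebra K L] [Algebra k[X] L] [IsScalarTower k[X] K L] [CommRing O]
  [IsDedekindDomain O] [Algebra O L] [IsFractionRing O L] [Algebra k[X] O]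
  [IsScalarTower k[X] O L] [IsIntegralClosure O k[X] L] (f : k[X][X]) (θ : L),
  (2 : k) ≠ 0 → IsGen g K f θ → Squarefree (dsc g f) →
  ∀ (P : k[X]) (v : HeightOneSpectrum k[X]), Irreducible P → v.asIdeal = Ideal.span {P} →
  ∀ (D : k[X]) (h : K[X]), ¬ P ∣ D →
    aeval (algebraMap k[X] L D * θ) h ≠ 0 →
    IsSquare (Algebra.norm K (aeval (algebraMap k[X] L D * θ) h)) →
    LocIm v (f.scaleRoots D) h →
    ∀ 𝔓 : HeightOneSpectrum O, Ov P 𝔓 → Ev 𝔓 (aeval (algebraMap k[X] L D * θ) h)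

/-- Primes `Q` dividing `D`. -/
def S_LOC2 : Prop := ∀ (g : ℕ) (k K L O : Type) [Field k] [Finite k] [Field K] [Algebra k[X] K]
  [IsFractionRing k[X] K]
  [Field L] [Algebra K L] [Algebra k[X] L] [IsScalarTower k[X] K L] [CommRing O]
  [IsDedekindDomain O] [Algebra O L] [IsFractionRing O L] [Algebra k[X] O]
  [IsScalarTower k[X] O L] [IsIntegralClosure O k[X] L] (f : k[X][X]) (θ : L)
  (S : Finset k[X]) (h : k[X] → k[X][X]), 1 ≤ g → (2 : k) ≠ 0 →
  IsGen g K f θ → Squarefree (dsc g f) → GoodS g S h → ∀ Q ∈ S, Cg Q f (X * h Q) →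
  ∀ v : HeightOneSpectrum k[X], v.asIdeal = Ideal.span {Q} →
  ∀ (D' : k[X]) (h' : K[X]), ¬ Q ∣ D' →
    aeval (algebraMap k[X] L (Q * D') * θ) h' ≠ 0 →
    LocIm v (f.scaleRoots (Q * D')) h' →
    ∀ 𝔮 : HeightOneSpectrum O, Ov Q 𝔮 → 𝔮.valuation L θ = 1 →
      U0 𝔮 (algebraMap k[X] L Q * θ) (aeval (algebraMap k[X] L (Q * D') * θ) h')

/-! ### Reciprocity -/

/-- The determinant of a form with a Lagrangian. -/
def S_HYP : Prop := ∀ (k V ι : Type) [Field k] [AddCommGroup V] [Module k V] [Fintype ι]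
  [DecidableEq ι] (b : Module.Basis ι k V) (B : LinearMap.BilinForm k V) (d : ℕ) (x : Fin d → V),
  B.IsSymm → B.Nondegenerate → Fintype.card ι = 2 * d → LinearIndependent k x →
  (∀ i j, B (x i) (x j) = 0) → IsSquare ((-1) ^ d * (BilinForm.toMatrix b B).det)

/-- Parity from two Lagrangians. -/
def S_PRY : Prop := ∀ (k : Type) [Field k] [Finite k] (ι : Type) [Fintype ι] (F : ι → Type)
  [∀ i, Field (F i)] [∀ i, Finite (F i)] [∀ i, Algebra k (F i)] (s : (∀ i, F i) →ₗ[k] k)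
  (a b : ∀ i, F i) (d : ℕ) (x y : Fin d → ∀ i, F i), (2 : k) ≠ 0 → (∀ i, a i ≠ 0) →
  (∀ i, b i ≠ 0) → Module.finrank k (∀ i, F i) = 2 * d →
  (∀ z, (∀ t, s (z * t) = 0) → z = 0) → LinearIndependent k x → LinearIndependent k y →
  (∀ i j, s (a * x i * x j) = 0) → (∀ i j, s (b * y i * y j) = 0) →
  Even (Finset.univ.filter fun i => ¬ IsSquare (a i * b i)).card

/-- The coefficient of `t ^ (-1)` in `a / P`. -/
noncomputable def res {k : Type} [Field k] (P a : k[X]) : k := (a %ₘ P).coeff (P.natDegree - 1)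

/-- Global sections: half of the dimension. -/
def S_LAT : Prop := ∀ (n : ℕ) (k : Type) [Field k] (G : Matrix (Fin n) (Fin n) k[X]) (P : k[X])
  (w : Fin n → ℤ) (m : ℕ), P.Monic → 1 ≤ P.natDegree → G.det ≠ 0 →
  (∀ i j, G i j = 0 ∨ ((G i j).natDegree : ℤ) ≤ P.natDegree + w i + w j) → (m : ℤ) = - ∑ i, w i →
  ∃ x : Fin m → Fin n → k[X], (∀ a b, res P (x a ⬝ᵥ (G *ᵥ x b)) = 0) ∧
    ∀ c : Fin m → k, (∀ i, P ∣ (G *ᵥ (∑ a, C (c a) • x a)) i) → c = 0

/-- Lattices given by valuations. -/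
def S_LTI : Prop := ∀ (g : ℕ) (k K L O : Type) [Field k] [Field K] [Algebra k[X] K]
  [IsFractionRing k[X] K]
  [Field L] [Algebra K L] [Algebra k[X] L] [IsScalarTower k[X] K L] [CommRing O]
  [IsDedekindDomain O] [Algebra O L] [IsFractionRing O L] [Algebra k[X] O]
  [IsScalarTower k[X] O L] [IsIntegralClosure O k[X] L] (f : k[X][X]) (θ : L),
  IsGen g K f θ → Squarefree (dsc g f) →
  ∀ (α : L) (T : Finset (HeightOneSpectrum O)), α ≠ 0 → ∃ e : Fin (2 * g + 1) → L,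
    LinearIndependent K e ∧ ∀ x : L,
      (∃ ξ : Fin (2 * g + 1) → k[X], x = ∑ i, algebraMap k[X] L (ξ i) * e i) ↔
      ∀ 𝔓 : HeightOneSpectrum O, 𝔓.valuation L x ^ 2 ≤
        𝔓.valuation L α * (if 𝔓 ∈ T then exp (1 : ℤ) else 1)

/-- The global Lagrangian. -/
def S_GL : Prop := ∀ (g : ℕ) (k K L O : Type) [Field k] [Finite k] [Field K] [Algebra k[X] K]
  [IsFractionRing k[X] K]
  [Field L] [Algebra K L] [Algebra k[X] L] [IsScalarTower k[X] K L] [CommRing O]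
  [IsDedekindDomain O] [Algebra O L] [IsFractionRing O L] [Algebra k[X] O]
  [IsScalarTower k[X] O L] [IsIntegralClosure O k[X] L] (f : k[X][X]) (θ : L) (N : ℕ) (r : k[X])
  (S : Finset k[X]) (h : k[X] → k[X][X]), 1 ≤ g →
  ∀ hG : IsGen g K f θ, GoodR g r → GoodS g S h → Fam g N r S h f →
  ∀ 𝔮 : k[X] → HeightOneSpectrum O, (∀ Q ∈ S, Ov Q (𝔮 Q) ∧ (𝔮 Q).valuation L θ = 1) →
  ∀ α : L, α ≠ 0 → IsSquare (Algebra.norm K α) → ∀ S₁ ⊆ S, S₁.Nonempty →
    (∀ Q ∈ S₁, ¬ Ev (𝔮 Q) α) →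
    (∀ 𝔓 : HeightOneSpectrum O, 𝔓 ∉ S₁.image 𝔮 → Ev 𝔓 α) →
    ∃ x : Fin (g * (∏ Q ∈ S₁, Q).natDegree) → L,
      (∀ a, ∀ 𝔓 : HeightOneSpectrum O, 𝔓.valuation L (x a) ^ 2 ≤
        𝔓.valuation L α * (if 𝔓 ∈ S₁.image 𝔮 then exp (1 : ℤ) else 1)) ∧
      (∀ a b, ∃ y : k[X], hG.top (algebraMap k[X] L (∏ Q ∈ S₁, Q) * (x a * x b) / α) =
        algebraMap k[X] K y ∧ res (∏ Q ∈ S₁, Q) y = 0) ∧
      ∀ c : Fin (g * (∏ Q ∈ S₁, Q).natDegree) → k,
        (∀ 𝔓 : HeightOneSpectrum O,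
          𝔓.valuation L (∑ a, algebraMap k[X] L (C (c a)) * x a) ^ 2 ≤
            𝔓.valuation L α * (if 𝔓 ∈ S₁.image 𝔮 then exp (-1 : ℤ) else 1)) → c = 0

/-- The reciprocity law. -/
def S_REC : Prop := ∀ (g : ℕ) (k K L O : Type) [Field k] [Finite k] [Field K] [Algebra k[X] K]
  [IsFractionRing k[X] K]
  [Field L] [Algebra K L] [Algebra k[X] L] [IsScalarTower k[X] K L] [CommRing O]
  [IsDedekindDomain O] [Algebra O L] [IsFractionRing O L] [Algebra k[X] O]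
  [IsScalarTower k[X] O L] [IsIntegralClosure O k[X] L] (f : k[X][X]) (θ : L) (N : ℕ) (r : k[X])
  (S : Finset k[X]) (h : k[X] → k[X][X]), 1 ≤ g → (2 : k) ≠ 0 →
  IsGen g K f θ → GoodR g r → GoodS g S h → Fam g N r S h f →
  ∀ 𝔮 : k[X] → HeightOneSpectrum O, (∀ Q ∈ S, Ov Q (𝔮 Q) ∧ (𝔮 Q).valuation L θ = 1) →
  ∀ α : L, α ≠ 0 → IsSquare (Algebra.norm K α) →
    (∀ 𝔓 : HeightOneSpectrum O, (∀ Q ∈ S, 𝔓 ≠ 𝔮 Q) → Ev 𝔓 α) →
    Even (S.filter fun Q => ¬ Ev (𝔮 Q) α ∧ ¬ Sq1 (𝔮 Q) (α * (algebraMap k[X] L Q * θ))).card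

/-! ### The main theorem -/

/-- From the absence of strict classes to a twist without 2-Selmer group. -/
def S_TW : Prop := ∀ (g : ℕ) (k K : Type) [Field k] [Finite k] [Field K] [Algebra k[X] K]
  [IsFractionRing k[X] K] (f : k[X][X]) (N : ℕ) (r : k[X]) (S : Finset k[X])
  (h : k[X] → k[X][X]), 1 ≤ g → (2 : k) ≠ 0 → GoodR g r → GoodS g S h → Fam g N r S h f →
  ¬ LBad g N S h f → ∃ J ⊆ S, SelZero K (f.scaleRoots (∏ Q ∈ J, Q))

/-- A positive proportion. -/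
def S_MAIN : Prop := ∀ (g : ℕ) (k K : Type) [Field k] [Finite k] [Field K] [Algebra k[X] K]
  [IsFractionRing k[X] K], 1 ≤ g → ((2 * g + 1).factorial : k) ≠ 0 →
  ∃ c : ℝ, 0 < c ∧ ∃ M₀ : ℕ, ∀ M ≥ M₀, {f : k[X][X] | Ht g M f}.Finite ∧
    c * ({f : k[X][X] | Ht g M f}.ncard : ℝ) ≤
      ({f : k[X][X] | Ht g M f ∧ (f.map (algebraMap k[X] K)).Separable ∧
        Irreducible (f.map (algebraMap k[X] K)) ∧ SelZero K f}.ncard : ℝ)

end Pool.Agent.N352.PJ
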