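import Pool.Agent.N352.PJ.Def

/-!
# Statements on squarefree discriminants

Project PJ (helper352). Parts of `S_FAM`.
-/

set_option autoImplicit false
set_option linter.all false

open Polynomial
open scoped Classical

namespace Pool.Agent.N352.PJ

open Pool.Agent.N874.PP (nm)

section disc

variable {g : ℕ} {R : Type} [CommRing R]

/-- `x ^ (2 g + 1) + a_(2 g - 1) x ^ (2 g - 1) + ... + a_0` -/
noncomputable def pol (a : Fin (2 * g) → R) : R[X] :=
  X ^ (2 * g + 1) + ∑ j, C (a j) * X ^ (j : ℕ)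

/-- The discriminant of `pol a`. -/
noncomputable def dis (a : Fin (2 * g) → R) : R :=
  (pol a).resultant (derivative (pol a)) (2 * g + 1) (2 * g)

/-- The discriminant as a polynomial in the constant term. -/
noncomputable def Dy (a : Fin (2 * g) → R) : R[X] :=
  dis fun j : Fin (2 * g) => if (j : ℕ) = 0 then X else C (a j)

/-- The discriminant of `Dy`. -/
noncomputable def D2 (a : Fin (2 * g) → R) : R :=
  (Dy a).resultant (derivative (Dy a)) (2 * g) (2 * g - 1)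

/-- `D2` as a polynomial in `a_1`. -/
noncomputable def Dz (a : Fin (2 * g) → R) : R[X] :=
  D2 fun j : Fin (2 * g) => if (j : ℕ) = 1 then X else C (a j)

end disc

/-- The discriminant is of degree `2 g` in the constant term. -/
def S_D1 : Prop := ∀ (g : ℕ) (R : Type) [CommRing R] [IsDomain R] (a : Fin (2 * g) → R), 1 ≤ g →
  (Dy a).natDegree ≤ 2 * g ∧ (∃ ε : ℤ, (ε = 1 ∨ ε = -1) ∧
    (Dy a).coeff (2 * g) = ε * (2 * g + 1 : R) ^ (2 * g + 1)) ∧
  ∀ y : R, (Dy a).eval y = dis fun j : Fin (2 * g) => if (j : ℕ) = 0 then y else a j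

/-- `D2` is of degree `(2 g - 1) (2 g + 1)` in `a_1`. -/
def S_D2 : Prop := ∀ (g : ℕ) (k R : Type) [Field k] [CommRing R] [IsDomain R] [Algebra k R]
  (a : Fin (2 * g) → R), 1 ≤ g → ((2 * g + 1).factorial : k) ≠ 0 →
  (Dz a).natDegree ≤ (2 * g - 1) * (2 * g + 1) ∧ IsUnit ((Dz a).coeff ((2 * g - 1) * (2 * g + 1))) ∧
  ∀ y : R, (Dz a).eval y = D2 fun j : Fin (2 * g) => if (j : ℕ) = 1 then y else a j

/-- The proportion of discriminants divisible by `P ^ 2`. -/
def S_LD : Prop := ∀ (g : ℕ) (k : Type) [Field k] [Finite k], 1 ≤ g →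
  ((2 * g + 1).factorial : k) ≠ 0 → ∀ P : k[X], Irreducible P →
  {a : Fin (2 * g) → k[X] | (∀ j, (a j).degree < 2 * P.natDegree) ∧ P ^ 2 ∣ dis a}.ncard * nm P ^ 2 ≤
    (2 * g + 2 * g * (2 * g - 1) * (2 * g + 1)) * nm P ^ (4 * g)

/-- The set of coefficients: height `2 N`, given leading coefficients, given residues modulo `W`. -/
def Bx {k : Type} [Field k] (g N : ℕ) (r : k[X]) (W : k[X]) (A : Fin (2 * g) → k[X]) :
    Set (Fin (2 * g) → k[X]) :=
  {a | ∀ j, (a j).natDegree ≤ 2 * N * (2 * g + 1 - j) ∧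
    (a j).coeff (2 * N * (2 * g + 1 - j)) = r.coeff j ∧ W ∣ a j - A j}

/-- The size of `Bx`. -/
def S_BX : Prop := ∀ (g : ℕ) (k : Type) [Field k] [Finite k] (N : ℕ) (r W : k[X])
  (A : Fin (2 * g) → k[X]), W ≠ 0 → W.natDegree ≤ 4 * N →
  (Bx g N r W A).Finite ∧ (Bx g N r W A).ncard * nm W ^ (2 * g) = Nat.card k ^ (2 * N * dd g)

/-- Few discriminants are divisible by the square of a large prime. -/
def S_LP : Prop := ∀ (g : ℕ) (k : Type) [Field k] [Finite k], 1 ≤ g →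
  ((2 * g + 1).factorial : k) ≠ 0 → ∀ (r W : k[X]) (A : Fin (2 * g) → k[X]), Squarefree W →
  ∀ ε : ℝ, 0 < ε → ∃ N₀ : ℕ, ∀ N ≥ N₀,
  ({a ∈ Bx g N r W A | ∃ P : k[X], Irreducible P ∧ N < P.natDegree ∧ ¬ P ∣ W ∧ P ^ 2 ∣ dis a}.ncard :
    ℝ) ≤ ε * ((Bx g N r W A).ncard : ℝ)

end Pool.Agent.N352.PJ
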