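import Pool.Agent.N874.PP.Def

/-!
# A positive proportion of all odd hyperelliptic Jacobians over `k(t)`: definitions and statements

Project PJ (helper352), the generalisation to all genera of project PP of helper874.
`g` is the genus, `2 g + 1` the degree of `f`. The theorems `S_..` are the parts.
-/

set_option autoImplicit false
set_option linter.all false

open Polynomial IsDedekindDomain Matrix
open scoped Classical

namespace Pool.Agent.N352.PJ

open Pool.Agent.N874.PP (nm)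

/-- Square matrices of size `2 g + 1`. -/
abbrev Mt (g : ℕ) (R : Type) : Type := Matrix (Fin (2 * g + 1)) (Fin (2 * g + 1)) R

section mats

variable (g : ℕ)

/-- The antidiagonal matrix. -/
def Jm (R : Type) [CommRing R] : Mt g R := Matrix.of fun i j => if j = Fin.rev i then 1 else 0

variable {g} {R : Type} [CommRing R]

/-- The characteristic polynomial of the self-adjoint operator `J B`. -/
noncomputable def chp (B : Mt g R) : R[X] := (Jm g R * B).charpoly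

/-- The value of the form `(x, (J B) ^ m x)`. -/
noncomputable def form (B : Mt g R) (m : ℕ) (ξ : Fin (2 * g + 1) → R) : R :=
  ξ ⬝ᵥ ((Jm g R * (Jm g R * B) ^ m) *ᵥ ξ)

/-- `B` is distinguished. -/
def Dist (B : Mt g R) : Prop :=
  ∃ ξ : Fin (2 * g + 1) → R, ∀ m ≤ 2 * g, form B m ξ = if m = 2 * g then 1 else 0

end mats

section fam

variable {k : Type} [Field k] (g : ℕ)

/-- The discriminant of `f`, a polynomial in `x` of degree `2 g + 1` over `k[t]`. -/
noncomputable def dsc (f : k[X][X]) : k[X] := f.resultant (derivative f) (2 * g + 1) (2 * g)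

variable {g}

/-- Congruence modulo `Q`. -/
def Cg (Q : k[X]) (f f' : k[X][X]) : Prop := ∀ j, Q ∣ f.coeff j - f'.coeff j

/-- `B` is distinguished modulo `Q`. -/
def DistMod (Q : k[X]) (B : Mt g k[X]) : Prop :=
  ∃ (ξ : Fin (2 * g + 1) → k[X]) (s : k[X]), ¬ Q ∣ s ∧
    ∀ m ≤ 2 * g, Q ∣ form B m ξ - if m = 2 * g then s ^ 2 else 0

variable (g)

/-- The set `S` of primes and the polynomials `h Q` of degree `2 g` which are irreducible modulo
`Q`. -/
def GoodS (S : Finset k[X]) (h : k[X] → k[X][X]) : Prop :=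
  ∀ Q ∈ S, Q.Monic ∧ Irreducible Q ∧ (h Q).Monic ∧ (h Q).natDegree = 2 * g ∧
    (h Q).coeff (2 * g - 1) = 0 ∧ Irreducible ((h Q).map (Ideal.Quotient.mk (Ideal.span {Q})))

/-- All monic polynomials of degree `2 g + 1` without term of degree `2 g` and of height at most
`M`. -/
structure Ht (M : ℕ) (f : k[X][X]) : Prop where
  mon : f.Monic
  deg : f.natDegree = 2 * g + 1
  tr : f.coeff (2 * g) = 0
  ht : ∀ j ≤ 2 * g, (f.coeff j).natDegree ≤ M * (2 * g + 1 - j)

/-- The family: height at most `2 N`, prescribed irreducible reduction `r` at infinity, reduction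
`x * h Q` at the `Q` in `S`, squarefree discriminant. -/
structure Fam (N : ℕ) (r : k[X]) (S : Finset k[X]) (h : k[X] → k[X][X]) (f : k[X][X]) : Prop where
  ht : Ht g (2 * N) f
  inf : ∀ j ≤ 2 * g, (f.coeff j).coeff (2 * N * (2 * g + 1 - j)) = r.coeff j
  con : ∀ Q ∈ S, Cg Q f (X * h Q)
  sq : Squarefree (dsc g f)

/-- `r` is a possible reduction at infinity. -/
def GoodR (r : k[X]) : Prop := r.Monic ∧ Irreducible r ∧ r.natDegree = 2 * g + 1 ∧ r.coeff (2 * g) = 0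

/-- The type of a lattice. -/
structure Typ (w : Fin (2 * g + 1) → ℤ) : Prop where
  mono : Monotone w
  anti : ∀ i, w (Fin.rev i) = - w i

/-- The types which occur. -/
structure Reg (N : ℕ) (w : Fin (2 * g + 1) → ℤ) : Prop where
  gap : ∀ i j : Fin (2 * g + 1), (j : ℕ) = i + 1 → w j - w i ≤ 2 * N
  mid : ∀ i : Fin (2 * g + 1), (i : ℕ) + 1 = g → - w i ≤ N

/-- The tuples over which we count. -/
structure Xset (N : ℕ) (w : Fin (2 * g + 1) → ℤ) (S : Finset k[X]) (h : k[X] → k[X][X])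
    (B : Mt g k[X]) : Prop where
  symm : B.IsSymm
  tr : (Jm g k[X] * B).trace = 0
  box : ∀ i j, B i j = 0 ∨ ((B i j).natDegree : ℤ) ≤ 2 * N + w i + w j
  con : ∀ Q ∈ S, Cg Q (chp B) (X * h Q)
  dist : ∀ Q ∈ S, DistMod Q B

/-- The polynomial `f` is bad: it is irreducible and comes from a tuple. -/
def LBad (N : ℕ) (S : Finset k[X]) (h : k[X] → k[X][X]) (f : k[X][X]) : Prop :=
  Irreducible f ∧ ∃ w, Typ g w ∧ Reg g N w ∧ ∃ B : Mt g k[X], Xset g N w S h B ∧ chp B = f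

end fam

/-! ### Counting -/

/-- Half the dimension of the space of symmetric matrices of trace zero: `q ^ ((2 N + 1) * dd g)` is
the number of tuples. -/
def dd (g : ℕ) : ℕ := 2 * g ^ 2 + 3 * g

/-- The exponent in the trivial bound for the number of tuples. -/
def ee (g N : ℕ) (w : Fin (2 * g + 1) → ℤ) : ℕ :=
  ∑ p ∈ (Finset.univ : Finset (Fin (2 * g + 1) × Fin (2 * g + 1))).filter
    (fun p => p.1 ≤ p.2 ∧ ¬ ((p.1 : ℕ) = g ∧ (p.2 : ℕ) = g)), (2 * N + 1 + w p.1 + w p.2).toNat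

/-- The dimension of the unipotent group. -/
def uu (g : ℕ) (w : Fin (2 * g + 1) → ℤ) : ℕ :=
  ∑ p ∈ (Finset.univ : Finset (Fin (2 * g + 1) × Fin (2 * g + 1))).filter
    (fun p => p.1 < p.2 ∧ (p.1 : ℕ) + p.2 < 2 * g), (w p.2 - w p.1 + 1).toNat

/-- The order of the orthogonal group over a finite field. -/
def S_ON : Prop := ∀ (g : ℕ) (F : Type) [Field F] [Finite F], (2 : F) ≠ 0 →
  Nat.card {M : Mt g F // Mᵀ * Jm g F * M = Jm g F} ≤ 2 * Nat.card F ^ (g * (2 * g + 1))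

/-- Over a finite field: distinguished matrices with given characteristic polynomial `x h(x)`. -/
def S_CQ : Prop := ∀ (g : ℕ) (F : Type) [Field F] [Finite F], 1 ≤ g → (2 : F) ≠ 0 → ∀ h : F[X],
  h.Monic → Irreducible h → h.natDegree = 2 * g →
  2 * Nat.card {B : Mt g F // B.IsSymm ∧ chp B = X * h ∧ Dist B} ≤ Nat.card F ^ (g * (2 * g + 1))

/-- The number of tuples in a large box. -/
def S_BOX : Prop := ∀ (g : ℕ) (k : Type) [Field k] [Finite k], 1 ≤ g → (2 : k) ≠ 0 →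
  ∀ (S : Finset k[X]) (h : k[X] → k[X][X]), GoodS g S h → ∀ (N : ℕ) (w : Fin (2 * g + 1) → ℤ),
  Typ g w → ((∏ Q ∈ S, Q).natDegree : ℤ) ≤ 2 * N + 2 * w 0 →
  2 ^ S.card * (∏ Q ∈ S, nm Q ^ (2 * g)) * {B : Mt g k[X] | Xset g N w S h B}.ncard ≤
    Nat.card k ^ ((2 * N + 1) * dd g)

/-- The trivial bound. -/
def S_BOX0 : Prop := ∀ (g : ℕ) (k : Type) [Field k] [Finite k], (2 : k) ≠ 0 →
  ∀ (S : Finset k[X]) (h : k[X] → k[X][X]) (N : ℕ) (w : Fin (2 * g + 1) → ℤ), Typ g w →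
  {B : Mt g k[X] | Xset g N w S h B}.Finite ∧
  {B : Mt g k[X] | Xset g N w S h B}.ncard ≤ Nat.card k ^ ee g N w

/-- Every irreducible `f` comes from at least `q ^ uu` tuples (unipotent matrices). -/
def S_ORB : Prop := ∀ (g : ℕ) (k : Type) [Field k] [Finite k], (2 : k) ≠ 0 →
  ∀ (S : Finset k[X]) (h : k[X] → k[X][X]) (N : ℕ) (w : Fin (2 * g + 1) → ℤ), Typ g w →
  {f : k[X][X] | Irreducible f ∧ ∃ B : Mt g k[X], Xset g N w S h B ∧ chp B = f}.ncard *
    Nat.card k ^ uu g w ≤ {B : Mt g k[X] | Xset g N w S h B}.ncard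

/-- The exponents. -/
def S_EXP : Prop := ∀ (g N : ℕ) (w : Fin (2 * g + 1) → ℤ), Typ g w → Reg g N w →
  (ee g N w : ℤ) + g ^ 2 +
      ∑ i ∈ Finset.univ.filter (fun i : Fin (2 * g + 1) => (i : ℕ) < g), min (- w i) N ≤
    (2 * N + 1) * dd g + uu g w

/-- Few bad `f`. -/
def S_BAD : Prop := ∀ (g : ℕ) (k : Type) [Field k] [Finite k], 1 ≤ g → (2 : k) ≠ 0 →
  ∀ (S : Finset k[X]) (h : k[X] → k[X][X]), GoodS g S h → ∃ N₀ : ℕ, ∀ N ≥ N₀,
  {f : k[X][X] | LBad g N S h f}.Finite ∧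
  2 ^ S.card * (∏ Q ∈ S, nm Q ^ (2 * g)) * {f : k[X][X] | LBad g N S h f}.ncard ≤
    2 ^ (g + 1) * Nat.card k ^ ((2 * N + 1) * dd g)

/-- Many `f` in the family. -/
def S_FAM : Prop := ∀ (g : ℕ) (k : Type) [Field k] [Finite k], 1 ≤ g →
  ((2 * g + 1).factorial : k) ≠ 0 → ∀ r : k[X], GoodR g r →
  ∃ c : ℝ, 0 < c ∧ ∀ (S : Finset k[X]) (h : k[X] → k[X][X]), GoodS g S h → ∃ N₀ : ℕ, ∀ N ≥ N₀,
    c * (Nat.card k : ℝ) ^ (2 * N * dd g) ≤ ((∏ Q ∈ S, nm Q ^ (2 * g) : ℕ) : ℝ) *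
      ({f : k[X][X] | Fam g N r S h f}.ncard : ℝ)

def S_EXS : Prop := ∀ (g : ℕ) (k : Type) [Field k] [Finite k], 1 ≤ g →
  ((2 * g + 1).factorial : k) ≠ 0 → ∀ m : ℕ,
  ∃ (S : Finset k[X]) (h : k[X] → k[X][X]), GoodS g S h ∧ S.card = m

def S_GR : Prop := ∀ (g : ℕ) (k : Type) [Field k] [Finite k],
  ((2 * g + 1).factorial : k) ≠ 0 → ∃ r : k[X], GoodR g r

end Pool.Agent.N352.PJ
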