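import Pool.Agent.N415.PJ.MAIN

/-!
# A positive proportion, with minimal equations

Project PJ (helper352), after `N415/PJ/MAIN.lean` of helper415.
-/

set_option autoImplicit false
set_option linter.all false

open Polynomial IsDedekindDomain
open scoped Classical

namespace Pool.Agent.N352.PJ

open Pool.Agent.N415.PJMAIN

section

variable {k : Type} [Field k]

/-- There is no irreducible `P` with `P ^ (2 (n - j)) ∣ f_j` for all `j < n = 2 g + 1`. -/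
def Mini (g : ℕ) (f : k[X][X]) : Prop :=
  ∀ P : k[X], Irreducible P → ¬ ∀ j < 2 * g + 1, P ^ (2 * (2 * g + 1 - j)) ∣ f.coeff j

theorem dvd_dsc {g : ℕ} {f : k[X][X]} (hd : f.natDegree = 2 * g + 1) {P : k[X]}
    (h0 : P ∣ f.coeff 0) (h1 : P ∣ f.coeff 1) : P ∣ dsc g f := by
  have hd' : (derivative f).natDegree ≤ 2 * g := by
    refine (natDegree_derivative_le f).trans ?_
    rw [hd, Nat.add_sub_cancel]
  obtain ⟨a, b, -, -, hab⟩ := exists_mul_add_mul_eq_C_resultant f (derivative f) hd.le hd' (by omega)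
  have h := congrArg (fun p : k[X][X] => p.coeff 0) hab
  simp only [coeff_add, mul_coeff_zero, coeff_C_zero, coeff_derivative, zero_add] at h
  unfold dsc
  rw [← h]
  exact dvd_add (h0.mul_right _) ((h1.mul_right _).mul_right _)

theorem mini_scale {g : ℕ} (hg : 1 ≤ g) {f : k[X][X]} (hd : f.natDegree = 2 * g + 1)
    (hs : Squarefree (dsc g f)) {D : k[X]} (hD : Squarefree D) : Mini g (f.scaleRoots D) := by
  intro P hP h
  obtain ⟨D', hD1, hD2⟩ : ∃ D', D ∣ P * D' ∧ ¬ P ∣ D' := by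
    by_cases hPD : P ∣ D
    · obtain ⟨D', rfl⟩ := hPD
      refine ⟨D', dvd_rfl, fun h' => hP.not_isUnit (hD P (mul_dvd_mul_left P h'))⟩
    · exact ⟨D, dvd_mul_left _ _, hPD⟩
  have key : ∀ j < 2 * g + 1, P ^ (2 * g + 1 - j) ∣ f.coeff j := by
    intro j hj
    have h1 := h j hj
    rw [coeff_scaleRoots, hd] at h1
    have h2 : P ^ (2 * (2 * g + 1 - j)) ∣ f.coeff j * (P * D') ^ (2 * g + 1 - j) :=
      h1.trans (mul_dvd_mul_left _ (pow_dvd_pow_of_dvd hD1 _))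
    have h3 : P ^ (2 * g + 1 - j) * P ^ (2 * g + 1 - j) ∣
        P ^ (2 * g + 1 - j) * (f.coeff j * D' ^ (2 * g + 1 - j)) := by
      have e1 : P ^ (2 * g + 1 - j) * P ^ (2 * g + 1 - j) = P ^ (2 * (2 * g + 1 - j)) := by
        rw [← pow_add, ← two_mul]
      rw [e1]
      refine h2.trans (dvd_of_eq ?_)
      rw [mul_pow]
      ring
    have h4 : P ^ (2 * g + 1 - j) ∣ f.coeff j * D' ^ (2 * g + 1 - j) :=
      (mul_dvd_mul_iff_left (pow_ne_zero _ hP.ne_zero)).1 h3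
    have hco : IsCoprime (P ^ (2 * g + 1 - j)) (D' ^ (2 * g + 1 - j)) :=
      IsCoprime.pow ((hP.coprime_iff_not_dvd).2 hD2)
    exact hco.dvd_of_dvd_mul_right h4
  have h0 : P ^ 2 ∣ f.coeff 0 := (pow_dvd_pow P (by omega)).trans (key 0 (by omega))
  have h1 : P ^ 2 ∣ f.coeff 1 := (pow_dvd_pow P (by omega)).trans (key 1 (by omega))
  have h2 := dvd_dsc hd h0 h1
  rw [pow_two] at h2
  exact hP.not_isUnit (hs P h2)

end

/-- A positive proportion of all curves. -/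
def S_MAIN2 : Prop := ∀ (g : ℕ) (k K : Type) [Field k] [Finite k] [Field K] [Algebra k[X] K]
  [IsFractionRing k[X] K], 1 ≤ g → ((2 * g + 1).factorial : k) ≠ 0 →
  ∃ c : ℝ, 0 < c ∧ ∃ M₀ : ℕ, ∀ M ≥ M₀, {f : k[X][X] | Ht g M f}.Finite ∧
    c * ({f : k[X][X] | Ht g M f}.ncard : ℝ) ≤
      ({f : k[X][X] | Ht g M f ∧ Mini g f ∧ (f.map (algebraMap k[X] K)).Separable ∧
        Irreducible (f.map (algebraMap k[X] K)) ∧ SelZero K f}.ncard : ℝ)

theorem main2 (hFAM : S_FAM) (hBAD : S_BAD) (hTW : S_TW) (hEXS : S_EXS) (hGR : S_GR)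
    (hIRK : S_IRK) : S_MAIN2 := by
  intro g k K _ _ _ _ _ hg hp
  have h2 : (2 : k) ≠ 0 := by
    intro h0
    apply hp
    obtain ⟨d, hd⟩ : 2 ∣ (2 * g + 1).factorial := Nat.dvd_factorial (by norm_num) (by omega)
    rw [hd, Nat.cast_mul, Nat.cast_ofNat, h0, zero_mul]
  obtain ⟨r, hr⟩ := hGR g k hp
  obtain ⟨S, s, c, hS, hc, N₀, hN₀⟩ := good_card hFAM hBAD hEXS hg hp h2 hr
  set e : ℕ := (∏ Q ∈ S, Q).natDegree with he
  have hq : (0 : ℝ) < Nat.card k := by exact_mod_cast Nat.card_pos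
  have hq1 : (1 : ℝ) ≤ Nat.card k := by exact_mod_cast Nat.card_pos
  have hS0 : (∏ Q ∈ S, Q) ≠ 0 := by
    rw [Finset.prod_ne_zero_iff]
    exact fun Q hQ => (hS Q hQ).2.1.ne_zero
  refine ⟨c / (2 ^ S.card * (Nat.card k : ℝ) ^ ((e + 1) * dd g + 2 * g)), by positivity,
    2 * N₀ + e, fun M hM => ⟨(ht_card g M).1, ?_⟩⟩
  obtain ⟨N, hN, hN1, hN2⟩ : ∃ N, N₀ ≤ N ∧ 2 * N + e ≤ M ∧ M ≤ 2 * N + e + 1 :=
    ⟨(M - e) / 2, by omega, by omega, by omega⟩
  have hG := hN₀ N hN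
  set H := {f : k[X][X] | Ht g M f ∧ Mini g f ∧ (f.map (algebraMap k[X] K)).Separable ∧
        Irreducible (f.map (algebraMap k[X] K)) ∧ SelZero K f} with hH
  set G := {f : k[X][X] | Fam g N r S s f ∧ ¬ LBad g N S s f} with hGdef
  have hHf : H.Finite := (ht_card g M).1.subset fun f hf => hf.1
  have hGf : G.Finite := (ht_card g (2 * N)).1.subset fun f hf => hf.1.ht
  have hJ0 : ∀ J ⊆ S, (∏ Q ∈ J, Q) ≠ 0 := by
    intro J hJ
    rw [Finset.prod_ne_zero_iff]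
    exact fun Q hQ => (hS Q (hJ hQ)).2.1.ne_zero
  have hJs : ∀ J ⊆ S, Squarefree (∏ Q ∈ J, Q) := by
    intro J hJ
    refine Finset.squarefree_prod_of_pairwise_isCoprime ?_ fun Q hQ => (hS Q (hJ hQ)).2.1.squarefree
    intro Q hQ Q' hQ' hne
    show IsRelPrime Q Q'
    refine IsCoprime.isRelPrime ?_
    rw [(hS Q (hJ hQ)).2.1.coprime_iff_not_dvd]
    intro hd
    exact hne (eq_of_monic_of_associated (hS Q (hJ hQ)).1 (hS Q' (hJ hQ')).1
      ((hS Q (hJ hQ)).2.1.associated_of_dvd (hS Q' (hJ hQ')).2.1 hd))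
  have hcard := card_fib hGf hHf S (fun J f => f.scaleRoots (∏ Q ∈ J, Q)) (by
      intro f hf
      obtain ⟨J, hJ, hsel⟩ := hTW g k K f N r S s hg h2 hr hS hf.1 hf.2
      have hDle : (∏ Q ∈ J, Q).natDegree ≤ e :=
        natDegree_le_of_dvd (Finset.prod_dvd_prod_of_subset _ _ _ hJ) hS0
      obtain ⟨-, i2, i3⟩ := hIRK g k K f N r (∏ Q ∈ J, Q) hf.1.ht hr hf.1.inf (hJ0 J hJ)
      exact ⟨J, hJ, ht_scale hf.1.ht (by omega), mini_scale hg hf.1.ht.deg hf.1.sq (hJs J hJ),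
        (i3 hf.1.sq.ne_zero).2, i2, hsel⟩) (by
      intro J hJ x hx y hy hxy
      exact scale_inj (hJ0 J hJ) (by rw [hx.1.ht.deg, hy.1.ht.deg]) hxy)
  have hcard' : (G.ncard : ℝ) ≤ 2 ^ S.card * H.ncard := by exact_mod_cast hcard
  have hM' : ({f : k[X][X] | Ht g M f}.ncard : ℝ) ≤
      (Nat.card k : ℝ) ^ (2 * N * dd g) * (Nat.card k : ℝ) ^ ((e + 1) * dd g + 2 * g) := by
    have h3 : ({f : k[X][X] | Ht g M f}.ncard : ℝ) ≤ (Nat.card k : ℝ) ^ (M * dd g + 2 * g) := by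
      exact_mod_cast (ht_card (k := k) g M).2
    refine h3.trans ?_
    rw [← pow_add]
    refine pow_le_pow_right₀ hq1 ?_
    have h4 : M * dd g ≤ (2 * N + e + 1) * dd g := Nat.mul_le_mul_right _ hN2
    calc M * dd g + 2 * g ≤ (2 * N + e + 1) * dd g + 2 * g := by omega
      _ = _ := by ring
  have hpow : (0 : ℝ) < (Nat.card k : ℝ) ^ ((e + 1) * dd g + 2 * g) := by positivity
  calc c / (2 ^ S.card * (Nat.card k : ℝ) ^ ((e + 1) * dd g + 2 * g)) *
        ({f : k[X][X] | Ht g M f}.ncard : ℝ)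
      ≤ c / (2 ^ S.card * (Nat.card k : ℝ) ^ ((e + 1) * dd g + 2 * g)) *
        ((Nat.card k : ℝ) ^ (2 * N * dd g) * (Nat.card k : ℝ) ^ ((e + 1) * dd g + 2 * g)) :=
        mul_le_mul_of_nonneg_left hM' (by positivity)
    _ = c * (Nat.card k : ℝ) ^ (2 * N * dd g) / 2 ^ S.card := by
        field_simp
    _ ≤ (G.ncard : ℝ) / 2 ^ S.card := by gcongr
    _ ≤ (2 ^ S.card * H.ncard) / 2 ^ S.card := by gcongr
    _ = H.ncard := by field_simp

end Pool.Agent.N352.PJ
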