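import Pool.Agent.N352.PJ.Tw
import Pool.Agent.N697.PJ.ON
import Pool.Agent.N87.PJ.CQ
import Pool.Agent.N415.PJ.BOX
import Pool.Agent.N50.PJ.Orb
import Pool.Agent.N401.PJ.Exp
import Pool.Agent.N270.PJ.Bad
import Pool.Agent.N568.PJ.D12
import Pool.Agent.N402.PJ.LD
import Pool.Agent.N402.PJ.BX
import Pool.Agent.N539.PJ.Lp
import Pool.Agent.N738.PJ.Exs
import Pool.Agent.N769.PJ.Int
import Pool.Agent.N588.PJ.SD
import Pool.Agent.N50.PJ.Red
import Pool.Agent.N415.PJ.WT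
import Pool.Agent.N572.PJ.NRM
import Pool.Agent.N262.PJ.Chi
import Pool.Agent.N434.PJ.GAPSQ
import Pool.Agent.N227.PJ.LB
import Pool.Agent.N227.PJ.Par
import Pool.Agent.N227.PJ.Ns
import Pool.Agent.N787.PJ.Ext
import Pool.Agent.N787.PJ.Cpl
import Pool.Agent.N427.PJ.E1
import Pool.Agent.N434.PJ.B1
import Pool.Agent.N195.PJ.E2
import Pool.Agent.N769.PJ.Eq
import Pool.Agent.N704.PJ.Loc1
import Pool.Agent.N434.PJ.HP
import Pool.Agent.N738.PJ.Lat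
import Pool.Agent.N655.PJ.Gl
import Pool.Agent.N622.PJ.Rec
import Pool.Agent.N134.PJ.Irk
import Pool.Agent.N352.PJ.Mini
import Pool.Agent.N765.PJ.TV
import Pool.Agent.N765.PJ.Exq
import Pool.Agent.N704.PJ.Loc2
import Pool.Agent.N227.PJ.Idx
import Pool.Agent.N539.PP.Cls
import Pool.Agent.N498.PP.Lin
import Pool.Agent.N262.PJ.Uni
import Pool.Agent.N615.JM.FamT2

/-!
# Assembly

Project PJ (helper352).
-/

set_option autoImplicit false
set_option linter.all false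

namespace Pool.Agent.N352.PJ

theorem main_of (hFAM : S_FAM) (hUNI : S_UNI) : S_MAIN2 := by
  have hINT : S_INT := Pool.Agent.N769.PJ.int
  have hTV : S_TV := Pool.Agent.N765.PJ.tv hINT
  have hEXQ : S_EXQ := Pool.Agent.N765.PJ.exq hINT
  have hCSQ : S_CSQ := Pool.Agent.N765.PJ.csq hINT
  have hLOC2 : S_LOC2 := Pool.Agent.N704.PJ.loc2 hINT hEXQ hCSQ
    (Pool.Agent.N195.PJ.E2.e2 Pool.Agent.N434.PJ.b1) Pool.Agent.N769.PJ.eq
    Pool.Agent.N787.PJ.ext Pool.Agent.N787.PJ.cpl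
  have hIDX : S_IDX := Pool.Agent.N227.PJ.idx hINT hEXQ
  have hCQ : S_CQ := Pool.Agent.N87.PJ.cq Pool.Agent.N697.PJ.on
  have hBAD : S_BAD := Pool.Agent.N270.PJ.bad (Pool.Agent.N415.PJBOX.box hCQ)
    Pool.Agent.N415.PJBOX.box0 Pool.Agent.N50.PJ.orb Pool.Agent.N401.PJ.exp_ineq
  have hSD : S_SD := Pool.Agent.N588.PJ.sd hINT
  have hLTI : S_LTI := Pool.Agent.N588.PJ.lti hINT
  have hLB : S_LB := Pool.Agent.N227.PJ.lb hINT Pool.Agent.N50.PJ.red Pool.Agent.N415.PJWT.wt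
    Pool.Agent.N415.PJWT.nw Pool.Agent.N572.PJ.nrm Pool.Agent.N262.PJ.chi Pool.Agent.N262.PJ.det
    hUNI Pool.Agent.N434.PJ.gap Pool.Agent.N434.PJ.sq
  have hPAR : S_PAR := Pool.Agent.N227.PJ.par hINT
  have hPARQ : S_PARQ := Pool.Agent.N227.PJ.parq hINT hEXQ
  have hNS : S_NS := Pool.Agent.N227.PJ.ns hINT hEXQ
  have hLOC1 : S_LOC1 := Pool.Agent.N704.PJ.loc1 hINT hPAR Pool.Agent.N427.PJ.e1
    Pool.Agent.N787.PJ.ext Pool.Agent.N787.PJ.cpl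
  have hGL : S_GL := Pool.Agent.N655.PJ.gl hINT hLTI Pool.Agent.N50.PJ.red
    Pool.Agent.N415.PJWT.wt Pool.Agent.N415.PJWT.nw Pool.Agent.N262.PJ.det hIDX
    Pool.Agent.N738.PJ.lat hEXQ
  have hREC : S_REC := Pool.Agent.N622.PJ.recp hINT hEXQ hCSQ Pool.Agent.N434.PJ.pry hGL
  have hTW : S_TW := tw Pool.Agent.N539.PP.cls Pool.Agent.N498.PP.lin hEXQ hNS hPARQ hREC hLOC1
    hLOC2 hSD hTV hLB Pool.Agent.N134.PJ.irk
  exact main2 hFAM hBAD hTW Pool.Agent.N738.PJ.exs Pool.Agent.N738.PJ.gr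
    Pool.Agent.N134.PJ.irk

theorem main_fam (hFAM : S_FAM) : S_MAIN2 :=
  main_of hFAM (Pool.Agent.N262.PJ.uni Pool.Agent.N769.PJ.int)

theorem main_all : S_MAIN2 := main_fam Pool.Agent.N615.JM.fam

end Pool.Agent.N352.PJ
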