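import Pool.Agent.N352.PJ.Loc

/-!
# Statements on the Gram determinant of a lattice given by valuations and on irreducibility

Project PJ (helper352). `S_IDX` is a part of `S_GL`.
-/

set_option autoImplicit false
set_option linter.all false

open Polynomial IsDedekindDomain Matrix WithZero
open scoped Classical

namespace Pool.Agent.N352.PJ

open Pool.Agent.N874.PP (Ov Ev Sq1 U0)

/-- The lattice `I` with `I ^ 2 = α ∏ 𝔮⁻¹` with the form `P x y / α`, `P = ∏ Q`: the Gram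
determinant has the degree of `P`. -/
def S_IDX : Prop := ∀ (g : ℕ) (k K L O : Type) [Field k] [Finite k] [Field K] [Algebra k[X] K]
  [IsFractionRing k[X] K]
  [Field L] [Algebra K L] [Algebra k[X] L] [IsScalarTower k[X] K L] [CommRing O]
  [IsDedekindDomain O] [Algebra O L] [IsFractionRing O L] [Algebra k[X] O]
  [IsScalarTower k[X] O L] [IsIntegralClosure O k[X] L] (f : k[X][X]) (θ : L)
  (S : Finset k[X]) (h : k[X] → k[X][X]), 1 ≤ g →
  ∀ hG : IsGen g K f θ, Squarefree (dsc g f) → GoodS g S h → (∀ Q ∈ S, Cg Q f (X * h Q)) →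
  ∀ 𝔮 : k[X] → HeightOneSpectrum O, (∀ Q ∈ S, Ov Q (𝔮 Q) ∧ (𝔮 Q).valuation L θ = 1) →
  ∀ α : L, α ≠ 0 → ∀ S₁ ⊆ S, (∀ Q ∈ S₁, ¬ Ev (𝔮 Q) α) →
    (∀ 𝔓 : HeightOneSpectrum O, 𝔓 ∉ S₁.image 𝔮 → Ev 𝔓 α) →
  ∀ e : Fin (2 * g + 1) → L, LinearIndependent K e →
    (∀ x : L, (∃ ξ : Fin (2 * g + 1) → k[X], x = ∑ i, algebraMap k[X] L (ξ i) * e i) ↔
      ∀ 𝔓 : HeightOneSpectrum O, 𝔓.valuation L x ^ 2 ≤
        𝔓.valuation L α * (if 𝔓 ∈ S₁.image 𝔮 then exp (1 : ℤ) else 1)) →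
  ∃ G : Mt g k[X], G.det ≠ 0 ∧ G.det.natDegree = (∏ Q ∈ S₁, Q).natDegree ∧
    ∀ i j, algebraMap k[X] K (G i j) =
      hG.top (algebraMap k[X] L (∏ Q ∈ S₁, Q) * (e i * e j) / α)

/-- The polynomials of the family are irreducible over `K = k(t)` (the place at infinity is
inert), and so are their twists. -/
def S_IRK : Prop := ∀ (g : ℕ) (k K : Type) [Field k] [Field K] [Algebra k[X] K]
  [IsFractionRing k[X] K] (f : k[X][X]) (N : ℕ) (r D : k[X]), Ht g (2 * N) f → GoodR g r →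
  (∀ j ≤ 2 * g, (f.coeff j).coeff (2 * N * (2 * g + 1 - j)) = r.coeff j) → D ≠ 0 →
  Irreducible (f.map (algebraMap k[X] K)) ∧
  Irreducible ((f.scaleRoots D).map (algebraMap k[X] K)) ∧
  (dsc g f ≠ 0 → (f.map (algebraMap k[X] K)).Separable ∧
    ((f.scaleRoots D).map (algebraMap k[X] K)).Separable)

end Pool.Agent.N352.PJ
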