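import Pool.Agent.N352.PJ.Def

/-!
# Statements of the parts on the field `L = K(θ)`, `f(θ) = 0`: lattices

Project PJ (helper352). In all of them `K` is the field of fractions of `k[X]`, `L = K(θ)` of degree
`2 g + 1`, `O` the integral closure of `k[X]` in `L`.
-/

set_option autoImplicit false
set_option linter.all false

open Polynomial IsDedekindDomain Matrix
open scoped Classical

namespace Pool.Agent.N352.PJ

open Pool.Agent.N874.PP (Ov Ev Sq1 U0)

/-! ### The field -/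

section gen

variable {k L : Type} [Field k] [Field L] [Algebra k[X] L]

/-- `L = K(θ)` is of degree `2 g + 1` over `K` and `f(θ) = 0`. -/
structure IsGen (g : ℕ) (K : Type) [Field K] [Algebra K L] (f : k[X][X]) (θ : L) : Prop where
  mon : f.Monic
  deg : f.natDegree = 2 * g + 1
  root : eval₂ (algebraMap k[X] L) θ f = 0
  rank : Module.finrank K L = 2 * g + 1
  gen : ∀ x : L, ∃ c : Fin (2 * g + 1) → K, x = ∑ i, algebraMap K L (c i) * θ ^ (i : ℕ)

variable {g : ℕ} {K : Type} [Field K] [Algebra K L] {f : k[X][X]} {θ : L}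

theorem IsGen.span (h : IsGen g K f θ) :
    ⊤ ≤ Submodule.span K (Set.range fun i : Fin (2 * g + 1) => θ ^ (i : ℕ)) := by
  intro x _
  obtain ⟨c, rfl⟩ := h.gen x
  refine Submodule.sum_mem _ fun i _ => ?_
  rw [← Algebra.smul_def]
  exact Submodule.smul_mem _ _ (Submodule.subset_span ⟨i, rfl⟩)

/-- The basis `1`, `θ`, ..., `θ ^ (2 g)`. -/
noncomputable def IsGen.basis (h : IsGen g K f θ) : Module.Basis (Fin (2 * g + 1)) K L :=
  basisOfTopLeSpanOfCardEqFinrank (fun i : Fin (2 * g + 1) => θ ^ (i : ℕ)) h.span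
    (by rw [h.rank, Fintype.card_fin])

theorem IsGen.basis_apply (h : IsGen g K f θ) (i : Fin (2 * g + 1)) :
    h.basis i = θ ^ (i : ℕ) := by
  rw [IsGen.basis, coe_basisOfTopLeSpanOfCardEqFinrank]

/-- The coefficient of `θ ^ (2 g)`. -/
noncomputable def IsGen.top (h : IsGen g K f θ) : L →ₗ[K] K := h.basis.coord (Fin.last (2 * g))

/-- `x = v 0 + v 1 θ + ... + v (2 g) θ ^ (2 g)` with polynomials `v i`. -/
def Crd (g : ℕ) (θ : L) (v : Fin (2 * g + 1) → k[X]) (x : L) : Prop :=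
  x = ∑ i, algebraMap k[X] L (v i) * θ ^ (i : ℕ)

/-- `e` is a basis of a lattice `I` with `I = {y | y I ⊆ α O}`. -/
structure SDn (g : ℕ) (k : Type) {L : Type} [Field k] [Field L] [Algebra k[X] L] (K : Type)
    [Field K] [Algebra K L] (e : Fin (2 * g + 1) → L) (α : L) : Prop where
  li : LinearIndependent K e
  int : ∀ i j, IsIntegral k[X] (e i * e j / α)
  dual : ∀ y : L, (∀ i, IsIntegral k[X] (e i * y / α)) →
    ∃ c : Fin (2 * g + 1) → k[X], y = ∑ i, algebraMap k[X] L (c i) * e i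

/-- A vector `x` of the lattice with `x ^ 2 / α` in `s ^ 2 + Q O`. -/
def TV (g : ℕ) (Q : k[X]) (θ : L) (e : Fin (2 * g + 1) → L) (α : L) : Prop :=
  ∃ (ξ : Fin (2 * g + 1) → k[X]) (s : k[X]) (v : Fin (2 * g + 1) → k[X]), ¬ Q ∣ s ∧
    (∀ i : Fin (2 * g + 1), Q ∣ v i - if (i : ℕ) = 0 then s ^ 2 else 0) ∧
    Crd g θ v ((∑ i, algebraMap k[X] L (ξ i) * e i) ^ 2 / α)

end gen

/-- The weight of a vector of polynomials: the maximum of `deg (v j) + d j`, `v j ≠ 0`. -/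
noncomputable def wtn {k : Type} [Field k] {n : ℕ} (d : Fin n → ℕ) (v : Fin n → k[X]) : ℕ :=
  Finset.univ.sup fun j => if v j = 0 then 0 else (v j).natDegree + d j

/-- The ring of integers is `k[X][θ]` (the discriminant is squarefree). -/
def S_INT : Prop := ∀ (g : ℕ) (k K L : Type) [Field k] [Field K] [Algebra k[X] K]
  [IsFractionRing k[X] K] [Field L] [Algebra K L] [Algebra k[X] L] [IsScalarTower k[X] K L]
  (f : k[X][X]) (θ : L), IsGen g K f θ → Squarefree (dsc g f) →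
  ∀ x : L, IsIntegral k[X] x ↔ ∃ v : Fin (2 * g + 1) → k[X], Crd g θ v x

/-- The lattice `I` with `I ^ 2 = α O`. -/
def S_SD : Prop := ∀ (g : ℕ) (k K L O : Type) [Field k] [Field K] [Algebra k[X] K]
  [IsFractionRing k[X] K]
  [Field L] [Algebra K L] [Algebra k[X] L] [IsScalarTower k[X] K L] [CommRing O]
  [IsDedekindDomain O] [Algebra O L] [IsFractionRing O L] [Algebra k[X] O]
  [IsScalarTower k[X] O L] [IsIntegralClosure O k[X] L] (f : k[X][X]) (θ : L),
  IsGen g K f θ → Squarefree (dsc g f) →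
  ∀ α : L, α ≠ 0 → (∀ 𝔓 : HeightOneSpectrum O, Ev 𝔓 α) →
    ∃ e : Fin (2 * g + 1) → L, SDn g k K e α

/-- Local squares give a distinguished vector modulo `Q`. -/
def S_TV : Prop := ∀ (g : ℕ) (k K L O : Type) [Field k] [Finite k] [Field K] [Algebra k[X] K]
  [IsFractionRing k[X] K]
  [Field L] [Algebra K L] [Algebra k[X] L] [IsScalarTower k[X] K L] [CommRing O]
  [IsDedekindDomain O] [Algebra O L] [IsFractionRing O L] [Algebra k[X] O]
  [IsScalarTower k[X] O L] [IsIntegralClosure O k[X] L] (f : k[X][X]) (θ : L)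
  (S : Finset k[X]) (h : k[X] → k[X][X]), 1 ≤ g →
  IsGen g K f θ → Squarefree (dsc g f) → GoodS g S h →
  ∀ (α : L) (e : Fin (2 * g + 1) → L), α ≠ 0 → SDn g k K e α → ∀ Q ∈ S, Cg Q f (X * h Q) →
    (∀ 𝔓 : HeightOneSpectrum O, Ov Q 𝔓 → Sq1 𝔓 α) → TV g Q θ e α

/-- Reduction of a lattice over `k[X]`. -/
def S_RED : Prop := ∀ (n : ℕ) (k : Type) [Field k] (d : Fin n → ℕ) (E : Matrix (Fin n) (Fin n) k[X]),
  E.det ≠ 0 → ∃ U : Matrix (Fin n) (Fin n) k[X], IsUnit U.det ∧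
    Monotone (fun i => wtn d ((U * E) i)) ∧
    ∑ i, wtn d ((U * E) i) = E.det.natDegree + ∑ j, d j

/-- The weight is multiplicative: the place at infinity is inert. -/
def S_WT : Prop := ∀ (g : ℕ) (k L : Type) [Field k] [Field L] [Algebra k[X] L] (K : Type) [Field K]
  [Algebra K L] [Algebra k[X] K] [IsFractionRing k[X] K] [IsScalarTower k[X] K L]
  (f : k[X][X]) (θ : L) (N : ℕ) (r : k[X]), IsGen g K f θ → Ht g (2 * N) f → GoodR g r →
  (∀ j ≤ 2 * g, (f.coeff j).coeff (2 * N * (2 * g + 1 - j)) = r.coeff j) →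
  ∀ (x y : L) (u v w : Fin (2 * g + 1) → k[X]), x ≠ 0 → y ≠ 0 → Crd g θ u x → Crd g θ v y →
    Crd g θ w (x * y) → wtn (fun i => 2 * N * (i : ℕ)) w =
      wtn (fun i => 2 * N * (i : ℕ)) u + wtn (fun i => 2 * N * (i : ℕ)) v

/-- The degree of the norm. -/
def S_NW : Prop := ∀ (g : ℕ) (k L : Type) [Field k] [Field L] [Algebra k[X] L] (K : Type) [Field K]
  [Algebra K L] [Algebra k[X] K] [IsFractionRing k[X] K] [IsScalarTower k[X] K L]
  (f : k[X][X]) (θ : L) (N : ℕ) (r : k[X]), IsGen g K f θ → Ht g (2 * N) f → GoodR g r →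
  (∀ j ≤ 2 * g, (f.coeff j).coeff (2 * N * (2 * g + 1 - j)) = r.coeff j) →
  ∀ (x : L) (u : Fin (2 * g + 1) → k[X]) (n : k[X]), x ≠ 0 → Crd g θ u x →
    algebraMap k[X] K n = Algebra.norm K x →
    n.natDegree = (2 * g + 1) * wtn (fun i => 2 * N * (i : ℕ)) u

/-- The normal form of a unimodular lattice of rank `2 g + 1` over the projective line. -/
def S_NRM : Prop := ∀ (g : ℕ) (k : Type) [Field k] [Finite k], (2 : k) ≠ 0 →
  ∀ (G : Mt g k[X]) (w : Fin (2 * g + 1) → ℤ) (κ : k), G.IsSymm → κ ≠ 0 →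
  G.det = (-1) ^ g * C (κ ^ 2) → Monotone w → ∑ i, w i = 0 →
  (∀ i j, G i j = 0 ∨ ((G i j).natDegree : ℤ) ≤ w i + w j) →
  Typ g w ∧ ∃ U : Mt g k[X], IsUnit U.det ∧ U * G * Uᵀ = Jm g k[X] ∧
    ∀ i j, U i j = 0 ∨ ((U i j).natDegree : ℤ) ≤ w i - w j

/-- The operator of multiplication by `θ` in a normalised basis. -/
def S_CHI : Prop := ∀ (g : ℕ) (k K L : Type) [Field k] [Field K] [Algebra k[X] K]
  [IsFractionRing k[X] K]
  [Field L] [Algebra K L] [Algebra k[X] L] [IsScalarTower k[X] K L] (f : k[X][X]) (θ : L),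
  ∀ h : IsGen g K f θ, ∀ (α : L) (e : Fin (2 * g + 1) → L), α ≠ 0 → LinearIndependent K e →
  (∀ i j, h.top (e i * e j / α) = Jm g K i j) →
  chp (Matrix.of fun i j => h.top (θ * (e i * e j) / α) : Mt g K) = f.map (algebraMap k[X] K) ∧
  ∀ (m : ℕ) (ξ : Fin (2 * g + 1) → K),
    form (Matrix.of fun i j => h.top (θ * (e i * e j) / α) : Mt g K) m ξ =
      h.top (θ ^ m * (∑ i, algebraMap K L (ξ i) * e i) ^ 2 / α)

/-- The determinant of the Gram matrix. -/
def S_DET : Prop := ∀ (g : ℕ) (k K L : Type) [Field k] [Field K] [Algebra k[X] K]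
  [IsFractionRing k[X] K]
  [Field L] [Algebra K L] [Algebra k[X] L] [IsScalarTower k[X] K L] (f : k[X][X]) (θ : L),
  ∀ h : IsGen g K f θ, ∀ (α : L) (E : Mt g K), α ≠ 0 →
  (Matrix.of fun i j => h.top ((∑ a, algebraMap K L (E i a) * θ ^ (a : ℕ)) *
      (∑ a, algebraMap K L (E j a) * θ ^ (a : ℕ)) / α) : Mt g K).det =
    (-1) ^ g * E.det ^ 2 / Algebra.norm K α

/-- The Gram matrix of the lattice is integral and unimodular. -/
def S_UNI : Prop := ∀ (g : ℕ) (k K L : Type) [Field k] [Field K] [Algebra k[X] K]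
  [IsFractionRing k[X] K]
  [Field L] [Algebra K L] [Algebra k[X] L] [IsScalarTower k[X] K L] (f : k[X][X]) (θ : L),
  ∀ h : IsGen g K f θ, Squarefree (dsc g f) → ∀ (α : L) (e : Fin (2 * g + 1) → L), α ≠ 0 →
  SDn g k K e α → ∃ G : Mt g k[X], IsUnit G.det ∧ ∀ i j, algebraMap k[X] K (G i j) =
    h.top (e i * e j / α)

/-- No invariant subspace. -/
def S_GAP : Prop := ∀ (g : ℕ) (K : Type) [Field K] (B : Mt g K), B.IsSymm → Irreducible (chp B) →
  ∀ i j : Fin (2 * g + 1), (i : ℕ) + j + 1 = 2 * g → ∃ a ≤ i, ∃ b ≤ j, B a b ≠ 0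

/-- An isotropic subspace of dimension `g` gives a square. -/
def S_SQ : Prop := ∀ (g : ℕ) (k K L : Type) [Field k] [Field K] [Algebra k[X] K]
  [IsFractionRing k[X] K]
  [Field L] [Algebra K L] [Algebra k[X] L] [IsScalarTower k[X] K L] (f : k[X][X]) (θ : L), 1 ≤ g →
  ∀ h : IsGen g K f θ, ∀ (α : L) (e : Fin (2 * g + 1) → L), α ≠ 0 → LinearIndependent K e →
  (∀ i j, h.top (e i * e j / α) = Jm g K i j) →
  (∀ i j : Fin (2 * g + 1), (i : ℕ) < g → (j : ℕ) < g → h.top (θ * (e i * e j) / α) = 0) →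
  IsSquare (Algebra.norm K α) → IsSquare α

/-- From the lattice to the tuple. -/
def S_LB : Prop := ∀ (g : ℕ) (k K L : Type) [Field k] [Finite k] [Field K] [Algebra k[X] K]
  [IsFractionRing k[X] K] [Field L] [Algebra K L] [Algebra k[X] L] [IsScalarTower k[X] K L]
  (f : k[X][X]) (θ : L) (N : ℕ) (S : Finset k[X]) (h : k[X] → k[X][X]) (r : k[X]), 1 ≤ g →
  (2 : k) ≠ 0 → IsGen g K f θ → GoodR g r → GoodS g S h →
  Fam g N r S h f → ∀ (α : L) (e : Fin (2 * g + 1) → L), α ≠ 0 → IsSquare (Algebra.norm K α) →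
  ¬ IsSquare α → SDn g k K e α → (∀ Q ∈ S, TV g Q θ e α) → LBad g N S h f

end Pool.Agent.N352.PJ
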