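import Pool.Agent.N352.PJ.Sel

/-!
# The 2-Selmer group of a twist of a polynomial which is not bad: conclusion

Project PJ (helper352).
-/

set_option autoImplicit false
set_option linter.all false

open Polynomial IsDedekindDomain
open scoped Classical

namespace Pool.Agent.N352.PJ

open Pool.Agent.N874.PP (S_CLS S_LIN)

section field

variable {k K : Type} [Field k] [Field K] [Algebra k[X] K] [IsFractionRing k[X] K]

/-- The polynomial `f` over `K`. -/
noncomputable def FK (K : Type) [Field K] [Algebra k[X] K] (f : k[X][X]) : K[X] :=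
  f.map (algebraMap k[X] K)

theorem algebraMap_adjoinRoot (F : K[X]) (c : k[X]) :
    algebraMap k[X] (AdjoinRoot F) c = AdjoinRoot.of F (algebraMap k[X] K c) := by
  rw [IsScalarTower.algebraMap_apply k[X] K (AdjoinRoot F)]
  rfl

theorem isGen_adjoinRoot {g : ℕ} {f : k[X][X]} (hm : f.Monic) (hd : f.natDegree = 2 * g + 1)
    [hf : Fact (Irreducible (FK K f))] : IsGen g K f (AdjoinRoot.root (FK K f)) where
  mon := hm
  deg := hd
  root := by
    have h := AdjoinRoot.eval₂_root (FK K f)
    rw [FK, eval₂_map] at h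
    have e : (algebraMap k[X] (AdjoinRoot (FK K f))) =
        (AdjoinRoot.of (FK K f)).comp (algebraMap k[X] K) := by
      refine RingHom.ext fun c => ?_
      exact algebraMap_adjoinRoot _ c
    rw [e]
    exact h
  rank := by
    have hm' : (FK K f).Monic := hm.map _
    rw [(AdjoinRoot.powerBasis hm'.ne_zero).finrank, AdjoinRoot.powerBasis_dim, FK,
      hm.natDegree_map, hd]
  gen := by
    intro x
    have hm' : (FK K f).Monic := hm.map _
    have hd' : (FK K f).natDegree = 2 * g + 1 := by rw [FK, hm.natDegree_map, hd]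
    obtain ⟨p, rfl⟩ := AdjoinRoot.mk_surjective x
    have h1 : AdjoinRoot.mk (FK K f) p = AdjoinRoot.mk (FK K f) (p %ₘ FK K f) := by
      rw [AdjoinRoot.mk_eq_mk, modByMonic_eq_sub_mul_div p (FK K f)]
      rw [sub_sub_cancel]
      exact dvd_mul_right _ _
    have hlt : (p %ₘ FK K f).natDegree < 2 * g + 1 := by
      rw [← hd']
      exact natDegree_modByMonic_lt p hm' (by
        intro h
        rw [h] at hd'
        simp at hd')
    refine ⟨fun i => (p %ₘ FK K f).coeff i, ?_⟩
    rw [h1]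
    conv_lhs => rw [(p %ₘ FK K f).as_sum_range_C_mul_X_pow' hlt]
    rw [map_sum, Finset.sum_range]
    refine Finset.sum_congr rfl fun i _ => ?_
    rw [map_mul, map_pow, AdjoinRoot.mk_X, AdjoinRoot.mk_C, AdjoinRoot.algebraMap_eq]

theorem sep_adjoinRoot {F : K[X]} (hs : F.Separable) [hf : Fact (Irreducible F)] :
    Algebra.IsSeparable K (AdjoinRoot F) := by
  have hint : IsIntegral K (AdjoinRoot.root F) := AdjoinRoot.isIntegral_root hf.out.ne_zero
  have hr : IsSeparable K (AdjoinRoot.root F) := by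
    unfold IsSeparable
    refine hs.of_dvd (minpoly.dvd _ _ ?_)
    rw [aeval_def]
    exact AdjoinRoot.eval₂_root _
  haveI := (IntermediateField.isSeparable_adjoin_simple_iff_isSeparable K (AdjoinRoot F)).2 hr
  have htop : IntermediateField.adjoin K {AdjoinRoot.root F} = ⊤ := by
    rw [← IntermediateField.toSubalgebra_inj, IntermediateField.top_toSubalgebra,
      IntermediateField.adjoin_simple_toSubalgebra_of_isAlgebraic hint.isAlgebraic]
    exact AdjoinRoot.adjoinRoot_eq_top
  rw [htop] at this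
  exact AlgEquiv.Algebra.isSeparable (IntermediateField.topEquiv (F := K) (E := AdjoinRoot F))

end field

/-- From the absence of bad elements to a twist without 2-Selmer group. -/
theorem tw (hCLS : S_CLS) (hLIN : S_LIN) (hEXQ : S_EXQ) (hNS : S_NS) (hPARQ : S_PARQ)
    (hREC : S_REC) (hLOC1 : S_LOC1) (hLOC2 : S_LOC2) (hSD : S_SD) (hTV : S_TV) (hLB : S_LB)
    (hIRK : S_IRK) : S_TW := by
  intro g k K _ _ _ _ _ f N r S h hg h2 hr hS hF hnb
  have hm := hF.ht.mon
  have hd := hF.ht.deg
  haveI hfact : Fact (Irreducible (FK K f)) := ⟨(hIRK g k K f N r 1 hF.ht hr hF.inf one_ne_zero).1⟩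
  have hsep : (FK K f).Separable :=
    ((hIRK g k K f N r 1 hF.ht hr hF.inf one_ne_zero).2.2 hF.sq.ne_zero).1
  have hc := isGen_adjoinRoot (K := K) hm hd
  have hmK : (FK K f).Monic := hm.map _
  haveI : FiniteDimensional K (AdjoinRoot (FK K f)) := hmK.finite_adjoinRoot
  haveI : Algebra.IsSeparable K (AdjoinRoot (FK K f)) := sep_adjoinRoot hsep
  haveI : IsDedekindDomain (integralClosure k[X] (AdjoinRoot (FK K f))) :=
    integralClosure.isDedekindDomain k[X] K (AdjoinRoot (FK K f))
  haveI : IsFractionRing (integralClosure k[X] (AdjoinRoot (FK K f))) (AdjoinRoot (FK K f)) :=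
    integralClosure.isFractionRing_of_finite_extension K (AdjoinRoot (FK K f))
  haveI : Module.Finite k[X] (integralClosure k[X] (AdjoinRoot (FK K f))) :=
    IsIntegralClosure.finite k[X] K (AdjoinRoot (FK K f)) _
  obtain ⟨J, hJ, hsel⟩ := sel_core (integralClosure k[X] (AdjoinRoot (FK K f))) hCLS hLIN hEXQ hNS
    hPARQ hREC hLOC1 hLOC2 hSD hTV hLB hg h2 hc hr hS hF hnb
  refine ⟨J, hJ, ?_⟩
  have hD0 : (∏ Q ∈ J, Q) ≠ 0 := by
    rw [Finset.prod_ne_zero_iff]
    exact fun Q hQ => (hS Q (hJ hQ)).2.1.ne_zero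
  generalize (∏ Q ∈ J, Q) = D at hD0 hsel ⊢
  intro h hcop hnorm hloc
  set F' : K[X] := (f.scaleRoots D).map (algebraMap k[X] K) with hF'
  haveI hfact' : Fact (Irreducible F') := ⟨(hIRK g k K f N r D hF.ht hr hF.inf hD0).2.1⟩
  set Θ : AdjoinRoot (FK K f) :=
    algebraMap k[X] (AdjoinRoot (FK K f)) D * AdjoinRoot.root (FK K f) with hΘ
  have hroot : aeval Θ F' = 0 := by
    rw [hF', aeval_map_algebraMap]
    have := scaleRoots_eval₂_mul (p := f) (algebraMap k[X] (AdjoinRoot (FK K f)))
      (AdjoinRoot.root (FK K f)) D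
    rw [hc.root, mul_zero] at this
    rw [aeval_def]
    exact this
  have hmF' : F'.Monic := ((monic_scaleRoots_iff D).2 hm).map _
  let φ : AdjoinRoot F' →ₐ[K] AdjoinRoot (FK K f) := AdjoinRoot.liftAlgHom F' (Algebra.ofId K _) Θ hroot
  have hφmk : ∀ p : K[X], φ (AdjoinRoot.mk F' p) = aeval Θ p := by
    intro p
    have h1 := AdjoinRoot.liftAlgHom_mk F' (Algebra.ofId K (AdjoinRoot (FK K f))) Θ hroot p
    rw [Algebra.toRingHom_ofId, ← Polynomial.aeval_def] at h1
    exact h1
  have hφinj : Function.Injective φ := φ.toRingHom.injective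
  haveI : FiniteDimensional K (AdjoinRoot F') := hmF'.finite_adjoinRoot
  have hrk : Module.finrank K (AdjoinRoot F') = Module.finrank K (AdjoinRoot (FK K f)) := by
    rw [hc.rank, (AdjoinRoot.powerBasis hmF'.ne_zero).finrank, AdjoinRoot.powerBasis_dim, hF',
      ((monic_scaleRoots_iff D).2 hm).natDegree_map, natDegree_scaleRoots, hd]
  have hφsurj : Function.Surjective φ :=
    (LinearMap.injective_iff_surjective_of_finrank_eq_finrank (f := φ.toLinearMap) hrk).1 hφinj
  let e : AdjoinRoot F' ≃ₐ[K] AdjoinRoot (FK K f) := AlgEquiv.ofBijective φ ⟨hφinj, hφsurj⟩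
  have hemk : ∀ p : K[X], e (AdjoinRoot.mk F' p) = aeval Θ p := hφmk
  have hne : aeval Θ h ≠ 0 := by
    intro h0
    obtain ⟨u, v, huv⟩ := hcop
    have := congrArg (aeval Θ) huv
    rw [map_add, map_mul, map_mul, hroot, h0, mul_zero, mul_zero, add_zero, map_one] at this
    exact zero_ne_one this
  have hnorm' : IsSquare (Algebra.norm K (aeval Θ h)) := by
    rw [← hemk, Algebra.norm_eq_of_algEquiv]
    exact hnorm
  obtain ⟨y, hy⟩ := hsel h hne hnorm' hloc
  obtain ⟨z, rfl⟩ := hφsurj y
  obtain ⟨s, rfl⟩ := AdjoinRoot.mk_surjective z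
  refine ⟨s, ?_⟩
  rw [← AdjoinRoot.mk_eq_zero]
  apply hφinj
  rw [map_zero, hφmk, map_sub, map_pow, sub_eq_zero]
  rw [hφmk] at hy
  rw [pow_two]
  exact hy

end Pool.Agent.N352.PJ
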